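import Mathlib

set_option autoImplicit false
set_option linter.unusedSectionVars false

/-!
# Expansion and elimination for permanents
-/

namespace Pool.Agent.TH687.TG

open Finset Equiv Matrix

variable {K : Type*} [CommRing K]

section basic

variable {ι κ : Type*} [Fintype ι] [DecidableEq ι] [Fintype κ] [DecidableEq κ]

lemma per_submatrix_equiv (e : κ ≃ ι) (M : Matrix ι ι K) :
    (M.submatrix e e).permanent = M.permanent := by
  unfold Matrix.permanent
  rw [← Equiv.sum_comp (Equiv.permCongr e)]
  apply Finset.sum_congr rfl
  intro σ _
  rw [← Equiv.prod_comp e]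
  apply Finset.prod_congr rfl
  intro a _
  simp [Matrix.submatrix_apply]

lemma per_updateCol_add (M : Matrix ι ι K) (j : ι) (u v : ι → K) :
    (M.updateCol j (u + v)).permanent = (M.updateCol j u).permanent
      + (M.updateCol j v).permanent := by
  simp only [permanent, ← mul_prod_erase _ _ (mem_univ j), updateCol_self, Pi.add_apply,
    add_mul, Finset.sum_add_distrib]
  congr 1
  · apply Finset.sum_congr rfl
    intro p _
    congr 1
    apply Finset.prod_congr rfl
    intro i hi
    rw [updateCol_ne (ne_of_mem_erase hi), updateCol_ne (ne_of_mem_erase hi)]
  · apply Finset.sum_congr rfl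
    intro p _
    congr 1
    apply Finset.prod_congr rfl
    intro i hi
    rw [updateCol_ne (ne_of_mem_erase hi), updateCol_ne (ne_of_mem_erase hi)]

lemma per_updateRow_add (M : Matrix ι ι K) (j : ι) (u v : ι → K) :
    (M.updateRow j (u + v)).permanent = (M.updateRow j u).permanent
      + (M.updateRow j v).permanent := by
  rw [← permanent_transpose, ← updateCol_transpose, per_updateCol_add, updateCol_transpose,
    permanent_transpose, updateCol_transpose, permanent_transpose]

/-- the permanent as a linear function of the row `j` -/
noncomputable def rowLin (M : Matrix ι ι K) (j : ι) : (ι → K) →ₗ[K] K where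
  toFun u := (M.updateRow j u).permanent
  map_add' u v := per_updateRow_add M j u v
  map_smul' c u := by
    rw [permanent_updateRow_smul]
    rfl

lemma rowLin_apply (M : Matrix ι ι K) (j : ι) (u : ι → K) :
    rowLin M j u = (M.updateRow j u).permanent := rfl

lemma per_zero_row (M : Matrix ι ι K) (j : ι) (h : ∀ c, M j c = 0) : M.permanent = 0 := by
  unfold Matrix.permanent
  apply Finset.sum_eq_zero
  intro σ _
  apply Finset.prod_eq_zero (Finset.mem_univ (σ.symm j))
  rw [Equiv.apply_symm_apply, h]

/-- replacing a row by a unit vector or a column by a unit vector is the same -/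
lemma per_updateRow_single (M : Matrix ι ι K) (r c : ι) :
    (M.updateRow r (Pi.single c 1)).permanent = (M.updateCol c (Pi.single r 1)).permanent := by
  unfold Matrix.permanent
  apply Finset.sum_congr rfl
  intro σ _
  by_cases h : σ c = r
  · apply Finset.prod_congr rfl
    intro a _
    by_cases ha : a = c
    · subst ha
      simp [h]
    · have : σ a ≠ r := by
        intro h1
        exact ha (σ.injective (h1.trans h.symm))
      rw [updateRow_ne this, updateCol_ne ha]
  · rw [Finset.prod_eq_zero (Finset.mem_univ (σ.symm r)),
      Finset.prod_eq_zero (Finset.mem_univ c)]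
    · rw [updateCol_self, Pi.single_eq_of_ne h]
    · rw [Equiv.apply_symm_apply, updateRow_self, Pi.single_eq_of_ne]
      intro h1
      apply h
      rw [← h1, Equiv.apply_symm_apply]

lemma per_updateRow_single_transpose (M : Matrix ι ι K) (r c : ι) :
    (Mᵀ.updateRow r (Pi.single c 1)).permanent = (M.updateRow c (Pi.single r 1)).permanent := by
  rw [per_updateRow_single, updateCol_transpose, permanent_transpose]

/-- expansion along the column `none` -/
lemma per_option (M : Matrix (Option ι) (Option ι) K) :
    M.permanent = M none none * (M.submatrix some some).permanent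
      + ∑ a, M (some a) none *
        ((M.submatrix some some).updateRow a (fun c => M none (some c))).permanent := by
  unfold Matrix.permanent
  rw [← Equiv.sum_comp (Equiv.Perm.decomposeOption.symm), Fintype.sum_prod_type,
    Fintype.sum_option]
  congr 1
  · rw [Finset.mul_sum]
    apply Finset.sum_congr rfl
    intro σ _
    rw [Fintype.prod_option]
    simp
  · apply Finset.sum_congr rfl
    intro a _
    rw [Finset.mul_sum]
    apply Finset.sum_congr rfl
    intro σ _
    rw [Fintype.prod_option]
    refine congrArg₂ _ (by simp) (Finset.prod_congr rfl ?_)
    intro c _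
    by_cases h : σ c = a
    · subst h
      simp
    · rw [updateRow_ne h]
      simp [Equiv.Perm.decomposeOption_symm_apply, Equiv.swap_apply_of_ne_of_ne, h]

/-- a row which is the unit vector of the index `none` -/
lemma per_option_row (M : Matrix (Option ι) (Option ι) K) (p : ι) :
    (M.updateRow (some p) (Pi.single none 1)).permanent =
      ((M.submatrix some some).updateRow p (fun c => M none (some c))).permanent := by
  rw [per_option]
  have h1 : ((M.updateRow (some p) (Pi.single none 1)).submatrix some some).permanent = 0 := by
    apply per_zero_row _ p
    intro c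
    simp
  rw [h1, mul_zero, zero_add, Finset.sum_eq_single p]
  · rw [updateRow_self, Pi.single_eq_same, one_mul]
    congr 1
    ext a c
    by_cases h : a = p
    · subst h
      simp
    · rw [updateRow_ne h, updateRow_ne h, submatrix_apply, submatrix_apply, updateRow_ne]
      simpa using h
  · intro a _ ha
    rw [updateRow_ne, per_zero_row _ p, mul_zero]
    · intro c
      rw [updateRow_ne (Ne.symm ha)]
      simp
    · simpa using ha
  · simp

/-- moving the extra point of the left summand outside -/
def optSum (α β : Type*) : Option (α ⊕ β) ≃ Option α ⊕ β where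
  toFun x := match x with
    | none => Sum.inl none
    | some (Sum.inl a) => Sum.inl (some a)
    | some (Sum.inr b) => Sum.inr b
  invFun x := match x with
    | Sum.inl none => none
    | Sum.inl (some a) => some (Sum.inl a)
    | Sum.inr b => some (Sum.inr b)
  left_inv x := by rcases x with _ | (a | b) <;> rfl
  right_inv x := by rcases x with (_ | a) | b <;> rfl

@[simp] lemma optSum_none (α β : Type*) : optSum α β none = Sum.inl none := rfl
@[simp] lemma optSum_inl (α β : Type*) (a : α) :
    optSum α β (some (Sum.inl a)) = Sum.inl (some a) := rfl
@[simp] lemma optSum_inr (α β : Type*) (b : β) :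
    optSum α β (some (Sum.inr b)) = Sum.inr b := rfl

/-- an identity block bordered by `B`, with its columns meeting only the row `s` below -/
def blk {ν : Type*} [DecidableEq ν] (B : Matrix ν κ K) (u : ν → K)
    (N : Matrix κ κ K) (s : κ) : Matrix (ν ⊕ κ) (ν ⊕ κ) K :=
  Matrix.fromBlocks (1 : Matrix ν ν K) B (Matrix.of fun i a => if i = s then u a else 0) N

section
variable {ν : Type*} [DecidableEq ν] (B : Matrix ν κ K) (u : ν → K) (N : Matrix κ κ K) (s : κ)
@[simp] lemma blk_ll (a b : ν) : blk B u N s (Sum.inl a) (Sum.inl b) = if a = b then 1 else 0 := rfl
@[simp] lemma blk_lr (a : ν) (b : κ) : blk B u N s (Sum.inl a) (Sum.inr b) = B a b := rfl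
@[simp] lemma blk_rl (a : κ) (b : ν) :
    blk B u N s (Sum.inr a) (Sum.inl b) = if a = s then u b else 0 := rfl
@[simp] lemma blk_rr (a b : κ) : blk B u N s (Sum.inr a) (Sum.inr b) = N a b := rfl
end

/-- elimination of the pivots of an identity block whose columns meet only one other row -/
lemma per_blk {ν : Type*} [Fintype ν] [DecidableEq ν] (B : Matrix ν κ K) (u : ν → K)
    (N : Matrix κ κ K) (s : κ) :
    (blk B u N s).permanent = (N.updateRow s (N s + ∑ a, u a • B a)).permanent := by
  classical
  have key : ∀ (ν : Type _) [Finite ν], ∀ [Fintype ν] [DecidableEq ν] (B : Matrix ν κ K)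
      (u : ν → K) (N : Matrix κ κ K),
      (blk B u N s).permanent = (N.updateRow s (N s + ∑ a, u a • B a)).permanent := by
    intro ν _
    refine Finite.induction_empty_option (P := fun ν => ∀ [Fintype ν] [DecidableEq ν]
      (B : Matrix ν κ K) (u : ν → K) (N : Matrix κ κ K),
      (blk B u N s).permanent = (N.updateRow s (N s + ∑ a, u a • B a)).permanent) ?_ ?_ ?_ ν
    · intro α β e h _ _ B u N
      let _ : Fintype α := Fintype.ofEquiv β e.symm
      let _ : DecidableEq α := Classical.decEq α
      have h1 := h (Matrix.of fun a => B (e a)) (fun a => u (e a)) N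
      have h2 : (blk B u N s).submatrix (Equiv.sumCongr e (Equiv.refl κ))
          (Equiv.sumCongr e (Equiv.refl κ)) = blk (Matrix.of fun a => B (e a))
            (fun a => u (e a)) N s := by
        ext a c
        rcases a with a | a <;> rcases c with c | c <;> simp
      rw [← per_submatrix_equiv (Equiv.sumCongr e (Equiv.refl κ)), h2, h1]
      rw [← Equiv.sum_comp e (fun a => u a • B a)]
      rfl
    · intro _ _ B u N
      rw [← per_submatrix_equiv (Equiv.emptySum PEmpty κ).symm]
      congr 1
      rw [Finset.univ_eq_empty, Finset.sum_empty, add_zero]
      ext a c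
      by_cases h : a = s
      · subst h
        simp
      · rw [updateRow_ne h]
        simp
    · intro α _ h ift _ B u N
      have hift : ift = instFintypeOption := Subsingleton.elim _ _
      subst hift
      have h1 := h (Matrix.of fun a => B (some a))
      have h1a := h1 (fun a => u (some a)) N
      have h1b := h1 0 (N.updateRow s (B none))
      rw [← per_submatrix_equiv (optSum α κ), per_option, Fintype.sum_sum_type]
      have e1 : (((blk B u N s).submatrix (optSum α κ) (optSum α κ)).submatrix some some)
          = blk (Matrix.of fun a => B (some a)) (fun a => u (some a)) N s := by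
        ext a c
        rcases a with a | a <;> rcases c with c | c <;> simp
      rw [e1]
      have e2 : ((blk (Matrix.of fun a => B (some a)) (fun a => u (some a)) N s).updateRow
          (Sum.inr s) (fun c => ((blk B u N s).submatrix (optSum α κ) (optSum α κ)) none (some c)))
          = blk (Matrix.of fun a => B (some a)) 0 (N.updateRow s (B none)) s := by
        ext a c
        rcases a with a | a
        · rw [updateRow_ne (by simp)]
          rcases c with c | c <;> simp
        · by_cases hs : a = s
          · subst hs
            rw [updateRow_self]
            rcases c with c | c <;> simp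
          · rw [updateRow_ne (by simpa using hs)]
            rcases c with c | c <;> simp [hs]
      have e3 : ∑ a : κ, ((blk B u N s).submatrix (optSum α κ) (optSum α κ)) (some (Sum.inr a)) none
          * ((blk (Matrix.of fun a => B (some a)) (fun a => u (some a)) N s).updateRow
          (Sum.inr a) (fun c => ((blk B u N s).submatrix (optSum α κ) (optSum α κ)) none
            (some c))).permanent
          = u none * (blk (Matrix.of fun a => B (some a)) 0 (N.updateRow s (B none)) s).permanent
          := by
        rw [Finset.sum_eq_single s]
        · rw [e2]
          simp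
        · intro b _ hb
          simp [hb]
        · simp
      have hs : ∑ a : Option α, u a • B a = u none • B none + ∑ a : α, u (some a) • B (some a) :=
        Fintype.sum_option (fun a => u a • B a)
      rw [e3, h1a, h1b, hs]
      simp only [← rowLin_apply]
      have e4 : ∀ w, (rowLin (N.updateRow s (B none)) s) w = rowLin N s w := by
        intro w
        rw [rowLin_apply, rowLin_apply, updateRow_idem]
      rw [e4]
      simp only [submatrix_apply, optSum_none, optSum_inl, blk_ll, updateRow_self]
      simp
      rw [add_assoc]
      exact congrArg (rowLin N s (N s) + ·) (add_comm _ _)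
  exact key ν B u N

end basic

section ext

variable {I : Type*} [Fintype I] [DecidableEq I]

/-- The extension step: new pivots `ν`, one new row and column `none` with the entry `x` on the
diagonal; the row of the pivot `a` has the entry `z a` in the new column and a one in the old
column `par a`, and the new row has the entry `u a` in the column of the pivot `a`. -/
def ext {ν : Type*} [DecidableEq ν] (M : Matrix I I K) (par : ν → I) (u z : ν → K) (x : K) :
    Matrix (ν ⊕ Option I) (ν ⊕ Option I) K :=
  blk (Matrix.of fun a c => Option.elim c (z a) (fun k => if k = par a then 1 else 0)) u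
    (Matrix.of fun a c => Option.elim a (Option.elim c x (fun _ => 0))
      (fun i => Option.elim c 0 (fun k => M i k))) none

section
variable {ν : Type*} [DecidableEq ν] (M : Matrix I I K) (par : ν → I) (u z : ν → K) (x : K)
@[simp] lemma ext_ll (a b : ν) :
    ext M par u z x (Sum.inl a) (Sum.inl b) = if a = b then 1 else 0 := rfl
@[simp] lemma ext_ln (a : ν) : ext M par u z x (Sum.inl a) (Sum.inr none) = z a := rfl
@[simp] lemma ext_ls (a : ν) (k : I) :
    ext M par u z x (Sum.inl a) (Sum.inr (some k)) = if k = par a then 1 else 0 := rfl
@[simp] lemma ext_nl (a : ν) : ext M par u z x (Sum.inr none) (Sum.inl a) = u a := rfl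
@[simp] lemma ext_nn : ext M par u z x (Sum.inr none) (Sum.inr none) = x := rfl
@[simp] lemma ext_ns (k : I) : ext M par u z x (Sum.inr none) (Sum.inr (some k)) = 0 := rfl
@[simp] lemma ext_sl (i : I) (a : ν) :
    ext M par u z x (Sum.inr (some i)) (Sum.inl a) = 0 := rfl
@[simp] lemma ext_sn (i : I) : ext M par u z x (Sum.inr (some i)) (Sum.inr none) = 0 := rfl
@[simp] lemma ext_ss (i k : I) :
    ext M par u z x (Sum.inr (some i)) (Sum.inr (some k)) = M i k := rfl
end

/-- value of the extension at a leaf which is a distinguished point -/
lemma per_ext_option {ν : Type*} [Fintype ν] [DecidableEq ν] (M : Matrix I I K)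
    (par : Option ν → I) (u z : Option ν → K) (x : K) (p : I) :
    ((ext M par u z x).updateRow (Sum.inr (some p)) (Pi.single (Sum.inl none) 1)).permanent
      = (x + ∑ a : ν, u (some a) * z (some a)) * rowLin M p (Pi.single (par none) 1)
        + z none * ∑ a : ν, u (some a) * rowLin M p (Pi.single (par (some a)) 1) := by
  classical
  rw [← per_submatrix_equiv (optSum ν (Option I))]
  have e1 : (((ext M par u z x).updateRow (Sum.inr (some p)) (Pi.single (Sum.inl none) 1)).submatrix
      (optSum ν (Option I)) (optSum ν (Option I)))
      = ((ext M par u z x).submatrix (optSum ν (Option I)) (optSum ν (Option I))).updateRow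
        (some (Sum.inr (some p))) (Pi.single none 1) := by
    ext a c
    by_cases ha : a = some (Sum.inr (some p))
    · subst ha
      simp [Pi.single_apply, ← Equiv.apply_eq_iff_eq (optSum ν (Option I)) (y := none)]
    · rw [updateRow_ne ha, submatrix_apply, updateRow_ne]
      · rfl
      · intro h
        apply ha
        apply (optSum ν (Option I)).injective
        rw [h]
        rfl
  rw [e1, per_option_row]
  set N : Matrix (Option I) (Option I) K := (Matrix.of fun a c =>
    Option.elim a (Option.elim c x (fun _ => 0))
      (fun i => Option.elim c (if i = p then z none else 0)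
        (fun k => (M.updateRow p (Pi.single (par none) 1)) i k))) with hN
  set B : Matrix ν (Option I) K := (Matrix.of fun a c =>
    Option.elim c (z (some a)) (fun k => if k = par (some a) then 1 else 0)) with hB
  have e2 : ((((ext M par u z x).submatrix (optSum ν (Option I))
      (optSum ν (Option I))).submatrix some some).updateRow (Sum.inr (some p)) fun c =>
      ((ext M par u z x).submatrix (optSum ν (Option I)) (optSum ν (Option I))) none (some c))
      = blk B (fun a => u (some a)) N none := by
    ext a c
    rcases a with a | (_ | a)
    · rw [updateRow_ne (by simp)]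
      rcases c with c | (_ | c) <;> simp [hB]
    · rw [updateRow_ne (by simp)]
      rcases c with c | (_ | c) <;> simp [hN]
    · by_cases ha : a = p
      · subst ha
        rw [updateRow_self]
        rcases c with c | (_ | c) <;> simp [hN, Pi.single_apply]
      · rw [updateRow_ne (by simpa using ha)]
        rcases c with c | (_ | c) <;> simp [hN, ha]
  rw [e2, per_blk, per_option]
  have e3 : (N.updateRow none (N none + ∑ a, u (some a) • B a)).submatrix some some
      = M.updateRow p (Pi.single (par none) 1) := by
    ext a c
    simp [hN]
  rw [e3]
  have e4 : (N.updateRow none (N none + ∑ a, u (some a) • B a)) none none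
      = x + ∑ a : ν, u (some a) * z (some a) := by
    rw [updateRow_self]
    simp [hN, hB, Finset.sum_apply]
  rw [e4, rowLin_apply]
  congr 1
  rw [Finset.sum_eq_single p]
  · rw [updateRow_idem, updateRow_ne (by simp)]
    have e5 : N (some p) none = z none := by simp [hN]
    rw [e5]
    congr 1
    have e6 : (fun c => (N.updateRow none (N none + ∑ a, u (some a) • B a)) none (some c))
        = ∑ a : ν, u (some a) • Pi.single (par (some a)) 1 := by
      ext c
      rw [updateRow_self]
      simp [hN, hB, Finset.sum_apply, Pi.single_apply]
    rw [e6, ← rowLin_apply, map_sum]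
    apply Finset.sum_congr rfl
    intro a _
    rw [map_smul, smul_eq_mul]
  · intro b _ hb
    rw [updateRow_ne (by simp)]
    simp [hN, hb]
  · simp

/-- value of the extension at a leaf -/
lemma per_ext {ν : Type*} [Fintype ν] [DecidableEq ν] (M : Matrix I I K)
    (par : ν → I) (u z : ν → K) (x : K) (p : I) (j : ν) :
    ((ext M par u z x).updateRow (Sum.inr (some p)) (Pi.single (Sum.inl j) 1)).permanent
      = (x + (∑ a : ν, u a * z a) - u j * z j) * rowLin M p (Pi.single (par j) 1)
        + z j * ((∑ a : ν, u a * rowLin M p (Pi.single (par a) 1))
          - u j * rowLin M p (Pi.single (par j) 1)) := by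
  classical
  let e : Option {a // a ≠ j} ≃ ν := Equiv.optionSubtypeNe j
  have he : e none = j := by simp [e]
  have h := per_ext_option M (par ∘ e) (u ∘ e) (z ∘ e) x p
  have h1 : ∀ f : ν → K, ∑ a, f a = f j + ∑ a : {a // a ≠ j}, f (e (some a)) := by
    intro f
    rw [← Equiv.sum_comp e, Fintype.sum_option, he]
  rw [← per_submatrix_equiv (Equiv.sumCongr e (Equiv.refl (Option I)))]
  have e1 : ((ext M par u z x).updateRow (Sum.inr (some p)) (Pi.single (Sum.inl j) 1)).submatrix
      (Equiv.sumCongr e (Equiv.refl (Option I))) (Equiv.sumCongr e (Equiv.refl (Option I)))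
      = (ext M (par ∘ e) (u ∘ e) (z ∘ e) x).updateRow (Sum.inr (some p))
        (Pi.single (Sum.inl none) 1) := by
    ext a c
    rcases a with a | (_ | a)
    · rw [updateRow_ne (by simp), submatrix_apply, updateRow_ne (by simp)]
      rcases c with c | (_ | c) <;> simp
    · rw [updateRow_ne (by simp), submatrix_apply, updateRow_ne (by simp)]
      rcases c with c | (_ | c) <;> simp
    · by_cases ha : a = p
      · subst ha
        rw [updateRow_self]
        rcases c with c | (_ | c)
        · simp [Pi.single_apply, ← he]
        · simp
        · simp
      · rw [updateRow_ne (by simpa using ha), submatrix_apply, updateRow_ne (by simpa using ha)]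
        rcases c with c | (_ | c) <;> simp
  rw [e1, h, h1 (fun a => u a * z a), h1 (fun a => u a * rowLin M p (Pi.single (par a) 1))]
  simp only [Function.comp_apply, he]
  ring

end ext

end Pool.Agent.TH687.TG
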