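import Mathlib
import Pool.Agent.TH687.TG.Perm

set_option autoImplicit false
set_option linter.unusedSectionVars false

/-!
# Trees of extension steps

Over every commutative ring a matrix can be enlarged by `2^(b+1) - 2 + b` rows and columns in such
a way that the permanents obtained by replacing an old row by the unit vector of one of `2^b` new
columns (the leaves) are products of `b` linear factors, chosen by the leaf, times the permanent
in which that row is replaced by the unit vector of an old column `r`.
-/

namespace Pool.Agent.TH687.TG

open Finset Equiv Matrix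

variable {K : Type*} [CommRing K]

/-- the linear factor at level `b` -/
def wt (b : ℕ) (ξ : K) (t : Bool) : K := ξ - 2 ^ b + if t then 2 else 0

/-- the properties of a tree of extension steps -/
structure IsTree {X I J : Type*} [Fintype I] [DecidableEq I] [Fintype J] [DecidableEq J]
    (M : X → Matrix I I K) (r : I) (b : ℕ) (N : X → (Fin b → K) → Matrix J J K) (old : I → J)
    (lf : (Fin b → Bool) → J) (dg : Fin b → J) : Prop where
  card : Fintype.card J + 2 = Fintype.card I + 2 ^ (b + 1) + b
  old_inj : Function.Injective old
  lf_inj : Function.Injective lf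
  dg_inj : Function.Injective dg
  dg_old : ∀ s i, dg s ≠ old i
  dg_lf : ∀ s j, dg s ≠ lf j
  lf_old : ∀ j k, lf j = old k → b = 0 ∧ k = r
  val : ∀ x ξ p j, rowLin (N x ξ) (old p) (Pi.single (lf j) 1)
    = (∏ s : Fin b, wt (s : ℕ) (ξ s) (j s)) * rowLin (M x) p (Pi.single r 1)
  old_val : ∀ x ξ p k, N x ξ (old p) (old k) = M x p k
  old_zero : ∀ x ξ p c, (∀ k, c ≠ old k) → N x ξ (old p) c = 0
  zero_old : ∀ x ξ a k, (∀ p, a ≠ old p) → k ≠ r → N x ξ a (old k) = 0
  dg_val : ∀ x ξ s, N x ξ (dg s) (dg s) = ξ s
  indep : ∀ x ξ x' ξ' a c, (∀ p, a ≠ old p) → (∀ s, a = dg s → c ≠ dg s) →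
    N x ξ a c = N x' ξ' a c

theorem exists_tree {X : Type*} {I : Type} [Fintype I] [DecidableEq I] (M : X → Matrix I I K)
    (r : I) (b : ℕ) :
    ∃ (J : Type) (_ : Fintype J) (_ : DecidableEq J) (N : X → (Fin b → K) → Matrix J J K)
      (old : I → J) (lf : (Fin b → Bool) → J) (dg : Fin b → J), IsTree M r b N old lf dg := by
  induction b with
  | zero =>
    refine ⟨I, inferInstance, inferInstance, fun x _ => M x, id, fun _ => r, Fin.elim0, ?_⟩
    refine ⟨by simp, Function.injective_id, ?_, ?_, ?_, ?_, ?_, ?_, ?_, ?_, ?_, ?_, ?_⟩
    · intro i j _
      exact Subsingleton.elim i j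
    · intro i
      exact i.elim0
    · intro i
      exact i.elim0
    · intro i
      exact i.elim0
    · intro j k h
      exact ⟨rfl, h.symm⟩
    · intro x ξ p j
      simp
    · intro x ξ p k
      rfl
    · intro x ξ p c h
      exact absurd rfl (h c)
    · intro x ξ a k h
      exact absurd rfl (h a)
    · intro x ξ i
      exact i.elim0
    · intro x ξ x' ξ' a c h
      exact absurd rfl (h a)
  | succ b ih =>
    obtain ⟨J, _, _, N, old, lf, dg, h⟩ := ih
    refine ⟨((Fin b → Bool) × Bool) ⊕ Option J, inferInstance, inferInstance,
      fun x ξ => ext (N x (fun s => ξ s.castSucc)) (fun a => lf a.1)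
        (fun a => if a.2 then -1 else 1) (fun a => if a.2 then 1 else 0) (ξ (Fin.last b)),
      fun i => Sum.inr (some (old i)),
      fun j => Sum.inl (fun s => j s.castSucc, j (Fin.last b)),
      fun s => Fin.lastCases (motive := fun _ => ((Fin b → Bool) × Bool) ⊕ Option J)
        (Sum.inr none) (fun s => Sum.inr (some (dg s))) s, ?_⟩
    refine ⟨?_, ?_, ?_, ?_, ?_, ?_, ?_, ?_, ?_, ?_, ?_, ?_, ?_⟩
    · have := h.card
      simp only [Fintype.card_sum, Fintype.card_prod, Fintype.card_pi, Fintype.card_bool,
        Finset.prod_const, Finset.card_univ, Fintype.card_fin, Fintype.card_option]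
      rw [pow_succ 2 (b + 1)]
      rw [pow_succ] at this ⊢
      omega
    · intro i j hij
      apply h.old_inj
      simpa using hij
    · intro i j hij
      simp only [Sum.inl.injEq, Prod.mk.injEq] at hij
      funext s
      refine Fin.lastCases hij.2 (fun s => congrFun hij.1 s) s
    · intro s t hst
      revert hst
      refine Fin.lastCases ?_ (fun s => ?_) s
      · refine Fin.lastCases ?_ (fun t => ?_) t
        · simp
        · simp
      · refine Fin.lastCases ?_ (fun t => ?_) t
        · simp
        · simp only [Fin.lastCases_castSucc, Sum.inr.injEq, Option.some.injEq]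
          intro hst
          rw [h.dg_inj hst]
    · intro s i
      refine Fin.lastCases ?_ (fun s => ?_) s
      · simp
      · simp only [Fin.lastCases_castSucc, ne_eq, Sum.inr.injEq, Option.some.injEq]
        exact h.dg_old s i
    · intro s i
      refine Fin.lastCases ?_ (fun s => ?_) s
      · simp
      · simp
    · intro j k hjk
      simp at hjk
    · intro x ξ p j
      rw [rowLin_apply, per_ext]
      have hV := h.val x (fun s => ξ s.castSucc) p (fun s => j s.castSucc)
      have h1 : ∑ a : (Fin b → Bool) × Bool, (if a.2 then (-1 : K) else 1) *
          (if a.2 then (1 : K) else 0) = - 2 ^ b := by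
        rw [Fintype.sum_prod_type]
        simp
      have h2 : ∑ a : (Fin b → Bool) × Bool, (if a.2 then (-1 : K) else 1) *
          rowLin (N x (fun s => ξ s.castSucc)) (old p) (Pi.single (lf a.1) 1) = 0 := by
        rw [Fintype.sum_prod_type]
        apply Finset.sum_eq_zero
        intro a _
        simp
      rw [h1, h2, hV, Fin.prod_univ_castSucc]
      simp only [wt, Fin.val_castSucc, Fin.val_last]
      rcases h3 : j (Fin.last b) with _ | _
      · simp
        ring
      · simp
        ring
    · intro x ξ p k
      simp only [ext_ss]
      exact h.old_val _ _ _ _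
    · intro x ξ p c hc
      rcases c with c | (_ | c)
      · simp
      · simp
      · simp only [ext_ss]
        apply h.old_zero
        intro k hk
        apply hc k
        rw [hk]
    · intro x ξ a k ha hk
      rcases a with a | (_ | a)
      · simp only [ext_ls, ite_eq_right_iff]
        intro h1
        exact absurd ((h.lf_old _ _ h1.symm).2) hk
      · simp
      · simp only [ext_ss]
        apply h.zero_old _ _ _ _ _ hk
        intro p hp
        apply ha p
        rw [hp]
    · intro x ξ s
      refine Fin.lastCases ?_ (fun s => ?_) s
      · simp
      · simp only [Fin.lastCases_castSucc, ext_ss]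
        exact h.dg_val _ _ _
    · intro x ξ x' ξ' a c ha hac
      rcases a with a | (_ | a)
      · rcases c with c | (_ | c)
        · simp
        · simp
        · simp
      · rcases c with c | (_ | c)
        · simp
        · exfalso
          apply hac (Fin.last b)
          · simp
          · simp
        · simp
      · rcases c with c | (_ | c)
        · simp
        · simp
        · simp only [ext_ss]
          apply h.indep
          · intro p hp
            apply ha p
            rw [hp]
          · intro s hs hs'
            apply hac s.castSucc
            · simp [hs]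
            · simp [hs']

end Pool.Agent.TH687.TG
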