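import Mathlib
import Pool.Agent.TH687.TG.Tree

set_option autoImplicit false
set_option linter.unusedSectionVars false

/-!
# The two-sided gadget
-/

namespace Pool.Agent.TH687.TG

open Finset Equiv Matrix

variable {K : Type*} [CommRing K]

section add

variable {ι : Type*} [Fintype ι] [DecidableEq ι]

lemma rowLin_single (N : Matrix ι ι K) (a c : ι) :
    rowLin N a (Pi.single c 1) = ∑ σ : Perm ι, if σ c = a then ∏ c' ∈ univ.erase c, N (σ c') c'
      else 0 := by
  rw [rowLin_apply, per_updateRow_single]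
  unfold Matrix.permanent
  apply Finset.sum_congr rfl
  intro σ _
  rw [← Finset.mul_prod_erase univ _ (Finset.mem_univ c), updateCol_self, Pi.single_apply]
  split_ifs with h
  · rw [one_mul]
    apply Finset.prod_congr rfl
    intro c' hc'
    rw [updateCol_ne (Finset.ne_of_mem_erase hc')]
  · rw [zero_mul]

lemma per_add_of (N Y : Matrix ι ι K)
    (H : ∀ σ : Perm ι, (∀ c, N (σ c) c ≠ 0 ∨ Y (σ c) c ≠ 0) → ∀ c c', Y (σ c) c ≠ 0 →
      Y (σ c') c' ≠ 0 → c = c') :
    (N + Y).permanent = N.permanent + ∑ a, ∑ c, Y a c * rowLin N a (Pi.single c 1) := by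
  have key : ∀ σ : Perm ι, ∏ c, (N + Y) (σ c) c = ∏ c, N (σ c) c
      + ∑ c, Y (σ c) c * ∏ c' ∈ univ.erase c, N (σ c') c' := by
    intro σ
    by_cases h : ∀ c, N (σ c) c ≠ 0 ∨ Y (σ c) c ≠ 0
    · by_cases h0 : ∃ c, Y (σ c) c ≠ 0
      · obtain ⟨c, hc⟩ := h0
        have h1 : ∀ c', c' ≠ c → Y (σ c') c' = 0 := by
          intro c' hc'
          by_contra h2
          exact hc' (H σ h c' c h2 hc)
        rw [← Finset.mul_prod_erase univ _ (Finset.mem_univ c),
          ← Finset.mul_prod_erase univ (fun c => N (σ c) c) (Finset.mem_univ c),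
          Finset.sum_eq_single c]
        · rw [Matrix.add_apply, add_mul]
          have h3 : ∏ x ∈ univ.erase c, (N + Y) (σ x) x = ∏ x ∈ univ.erase c, N (σ x) x := by
            apply Finset.prod_congr rfl
            intro x hx
            rw [Matrix.add_apply, h1 x (Finset.ne_of_mem_erase hx), add_zero]
          rw [h3]
        · intro c' _ hc'
          rw [h1 c' hc', zero_mul]
        · simp
      · push Not at h0
        rw [Finset.sum_eq_zero, add_zero]
        · apply Finset.prod_congr rfl
          intro x _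
          rw [Matrix.add_apply, h0 x, add_zero]
        · intro c _
          rw [h0 c, zero_mul]
    · push Not at h
      obtain ⟨c, hc1, hc2⟩ := h
      rw [Finset.prod_eq_zero (Finset.mem_univ c),
        Finset.prod_eq_zero (f := fun c => N (σ c) c) (Finset.mem_univ c) hc1,
        Finset.sum_eq_zero, add_zero]
      · intro c' _
        by_cases hc' : c' = c
        · rw [hc', hc2, zero_mul]
        · rw [Finset.prod_eq_zero (f := fun c => N (σ c) c)
            (Finset.mem_erase.2 ⟨Ne.symm hc', Finset.mem_univ c⟩) hc1, mul_zero]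
      · rw [Matrix.add_apply, hc1, hc2, add_zero]
  unfold Matrix.permanent
  rw [Finset.sum_congr rfl (fun σ _ => key σ), Finset.sum_add_distrib]
  congr 1
  simp only [rowLin_single, Finset.mul_sum]
  rw [Finset.sum_comm]
  symm
  calc ∑ x, ∑ y, ∑ σ : Perm ι, Y x y * (if σ y = x then ∏ c' ∈ univ.erase y, N (σ c') c' else 0)
      = ∑ y, ∑ x, ∑ σ : Perm ι, Y x y * (if σ y = x then ∏ c' ∈ univ.erase y, N (σ c') c' else 0)
        := Finset.sum_comm
    _ = ∑ y, ∑ σ : Perm ι, ∑ x, Y x y * (if σ y = x then ∏ c' ∈ univ.erase y, N (σ c') c' else 0)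
        := Finset.sum_congr rfl fun y _ => Finset.sum_comm
    _ = _ := by
        apply Finset.sum_congr rfl
        intro y _
        apply Finset.sum_congr rfl
        intro σ _
        rw [Finset.sum_eq_single (σ y)]
        · simp
        · intro x _ hx
          rw [if_neg (Ne.symm hx), mul_zero]
        · simp

/-- a permutation maps as many points out of a set as into it -/
lemma exists_out {O : Finset ι} (σ : Perm ι) {c c' : ι} (hc : c ∉ O) (hc' : c' ∉ O)
    (h : σ c ∈ O) (h' : σ c' ∈ O) (hne : c ≠ c') (r : ι) :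
    ∃ d ∈ O, d ≠ r ∧ σ d ∉ O := by
  by_contra hcon
  push Not at hcon
  have h1 : (O.erase r ∪ {c, c'}).image σ ⊆ O := by
    intro x hx
    rw [Finset.mem_image] at hx
    obtain ⟨y, hy, rfl⟩ := hx
    rw [Finset.mem_union, Finset.mem_erase, Finset.mem_insert, Finset.mem_singleton] at hy
    rcases hy with ⟨h1, h2⟩ | rfl | rfl
    · exact hcon y h2 h1
    · exact h
    · exact h'
  have h2 := Finset.card_le_card h1
  rw [Finset.card_image_of_injective _ σ.injective, Finset.card_union_of_disjoint,
    Finset.card_pair hne] at h2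
  · have := Finset.pred_card_le_card_erase (s := O) (a := r)
    omega
  · rw [Finset.disjoint_left]
    intro x hx
    rw [Finset.mem_insert, Finset.mem_singleton]
    rintro (rfl | rfl)
    · exact hc (Finset.mem_of_mem_erase hx)
    · exact hc' (Finset.mem_of_mem_erase hx)

lemma exists_in {O : Finset ι} (σ : Perm ι) {c : ι} (hc : c ∈ O) (h : σ c ∉ O) :
    ∃ d, d ∉ O ∧ σ d ∈ O := by
  by_contra hcon
  push Not at hcon
  have h1 : O ⊆ (O.erase c).image σ := by
    intro x hx
    rw [Finset.mem_image]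
    refine ⟨σ.symm x, ?_, by simp⟩
    rw [Finset.mem_erase]
    constructor
    · intro h2
      apply h
      rw [← h2, Equiv.apply_symm_apply]
      exact hx
    · by_contra h2
      apply hcon _ h2
      rw [Equiv.apply_symm_apply]
      exact hx
  have h2 := (Finset.card_le_card h1).trans Finset.card_image_le
  rw [Finset.card_erase_of_mem hc] at h2
  have := Finset.card_pos.2 ⟨c, hc⟩
  omega

end add

/-- the properties of the two-sided gadget -/
structure IsGadget {J : Type*} [Fintype J] [DecidableEq J] (ℓ : ℕ)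
    (N : (Fin ℓ → K) → (Fin ℓ → K) → Matrix J J K) (rw cl : (Fin ℓ → Bool) → J)
    (dg : Fin ℓ ⊕ Fin ℓ → J) : Prop where
  card : Fintype.card J + 3 = 4 * 2 ^ ℓ + 2 * ℓ
  rw_inj : Function.Injective rw
  cl_inj : Function.Injective cl
  dg_inj : Function.Injective dg
  off : ∀ i j s, rw i = dg s → cl j ≠ dg s
  dg_val : ∀ ξ η s, N ξ η (dg s) (dg s) = Sum.elim ξ η s
  indep : ∀ ξ η ξ' η' a c, (∀ s, a = dg s → c ≠ dg s) → N ξ η a c = N ξ' η' a c
  val : ∀ ξ η i j, rowLin (N ξ η) (rw i) (Pi.single (cl j) 1)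
    = (∏ s : Fin ℓ, wt (s : ℕ) (ξ s) (i s)) * ∏ s : Fin ℓ, wt (s : ℕ) (η s) (j s)
  block : ∀ ξ η (Z : (Fin ℓ → Bool) → (Fin ℓ → Bool) → K),
    (N ξ η + ∑ i, ∑ j, Matrix.single (rw i) (cl j) (Z i j)).permanent
      = ∑ i, ∑ j, Z i j * ((∏ s : Fin ℓ, wt (s : ℕ) (ξ s) (i s))
        * ∏ s : Fin ℓ, wt (s : ℕ) (η s) (j s))

theorem exists_gadget (K : Type*) [CommRing K] (ℓ : ℕ) :
    ∃ (J : Type) (_ : Fintype J) (_ : DecidableEq J)
      (N : (Fin ℓ → K) → (Fin ℓ → K) → Matrix J J K) (rw cl : (Fin ℓ → Bool) → J)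
      (dg : Fin ℓ ⊕ Fin ℓ → J), IsGadget ℓ N rw cl dg := by
  classical
  obtain ⟨J1, _, _, N1, old1, lf1, dg1, h1⟩ :=
    exists_tree (X := Unit) (K := K) (I := Unit) (fun _ => 0) () ℓ
  obtain ⟨J, _, _, N, old, lf, dg, h⟩ :=
    exists_tree (X := Fin ℓ → K) (K := K) (I := J1) (fun ξ => (N1 () ξ)ᵀ) (old1 ()) ℓ
  have hcard : Fintype.card J + 3 = 4 * 2 ^ ℓ + 2 * ℓ := by
    have e1 := h1.card
    have e2 := h.card
    simp only [Fintype.card_unit] at e1
    rw [pow_succ] at e1 e2
    omega
  have hval : ∀ ξ η i j, rowLin (N ξ η) (old (lf1 i)) (Pi.single (lf j) 1)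
      = (∏ s : Fin ℓ, wt (s : ℕ) (ξ s) (i s)) * ∏ s : Fin ℓ, wt (s : ℕ) (η s) (j s) := by
    intro ξ η i j
    rw [h.val, rowLin_apply, per_updateRow_single_transpose, ← rowLin_apply, h1.val,
      rowLin_apply]
    have e : (((fun _ => 0 : Unit → Matrix Unit Unit K) ()).updateRow ()
        (Pi.single () 1)).permanent = 1 := by
      simp [Matrix.permanent]
    rw [e]
    ring
  have hr0 : ∀ ξ η p, N ξ η (old p) (old (old1 ())) = 0 := by
    intro ξ η p
    rw [h.old_val, transpose_apply]
    by_cases hp : p = old1 ()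
    · rw [hp, h1.old_val]
      rfl
    · apply h1.old_zero
      intro k
      rcases k with ⟨⟩
      exact hp
  refine ⟨J, inferInstance, inferInstance, N, fun i => old (lf1 i), lf,
    Sum.elim (fun s => old (dg1 s)) dg, ⟨hcard, ?_, h.lf_inj, ?_, ?_, ?_, ?_, hval, ?_⟩⟩
  · exact h.old_inj.comp h1.lf_inj
  · intro s t hst
    rcases s with s | s <;> rcases t with t | t
    · rw [h1.dg_inj (h.old_inj hst)]
    · exact absurd hst.symm (h.dg_old _ _)
    · exact absurd hst (h.dg_old _ _)
    · rw [h.dg_inj hst]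
  · intro i j s hs
    rcases s with s | s
    · exact absurd (h.old_inj hs).symm (h1.dg_lf s i)
    · exact (h.dg_lf s j).symm
  · intro ξ η s
    rcases s with s | s
    · simp only [Sum.elim_inl]
      rw [h.old_val, transpose_apply, h1.dg_val]
    · exact h.dg_val _ _ _
  · intro ξ η ξ' η' a c hac
    by_cases ha : ∃ p, a = old p
    · obtain ⟨p, rfl⟩ := ha
      by_cases hc : ∃ k, c = old k
      · obtain ⟨k, rfl⟩ := hc
        rw [h.old_val, h.old_val, transpose_apply, transpose_apply]
        by_cases hk : ∃ u, k = old1 u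
        · obtain ⟨u, rfl⟩ := hk
          by_cases hp : ∃ v, p = old1 v
          · obtain ⟨v, rfl⟩ := hp
            rw [h1.old_val, h1.old_val]
          · push Not at hp
            rw [h1.old_zero _ _ _ _ hp, h1.old_zero _ _ _ _ hp]
        · push Not at hk
          apply h1.indep _ _ _ _ _ _ hk
          intro s hs hs'
          exact hac (Sum.inl s) (by rw [hs']; rfl) (by rw [hs]; rfl)
      · push Not at hc
        rw [h.old_zero _ _ _ _ hc, h.old_zero _ _ _ _ hc]
    · push Not at ha
      apply h.indep _ _ _ _ _ _ ha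
      intro s hs
      exact hac (Sum.inr s) hs
  · intro ξ η Z
    let O : Finset J := Finset.univ.image old
    have hO : ∀ a, a ∈ O ↔ ∃ p, a = old p := by
      intro a
      simp only [O, Finset.mem_image, Finset.mem_univ, true_and]
      constructor
      · rintro ⟨p, rfl⟩; exact ⟨p, rfl⟩
      · rintro ⟨p, rfl⟩; exact ⟨p, rfl⟩
    have hnO : ∀ a, a ∉ O → ∀ p, a ≠ old p := by
      intro a ha p hp
      exact ha ((hO a).2 ⟨p, hp⟩)
    have hN1 : ∀ a c, a ∈ O → c ∉ O → N ξ η a c = 0 := by
      intro a c ha hc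
      obtain ⟨p, rfl⟩ := (hO a).1 ha
      exact h.old_zero _ _ _ _ (hnO c hc)
    have hN2 : ∀ a c, a ∉ O → c ∈ O → c ≠ old (old1 ()) → N ξ η a c = 0 := by
      intro a c ha hc hr
      obtain ⟨k, rfl⟩ := (hO c).1 hc
      apply h.zero_old _ _ _ _ (hnO a ha)
      rintro rfl
      exact hr rfl
    set Y : Matrix J J K := ∑ i, ∑ j, Matrix.single (old (lf1 i)) (lf j) (Z i j) with hY
    have hYv : ∀ a c, Y a c ≠ 0 → (∃ i, a = old (lf1 i)) ∧ ∃ j, c = lf j := by
      intro a c hac
      rw [hY, Matrix.sum_apply] at hac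
      obtain ⟨i, _, hi⟩ := Finset.exists_ne_zero_of_sum_ne_zero hac
      rw [Matrix.sum_apply] at hi
      obtain ⟨j, _, hj⟩ := Finset.exists_ne_zero_of_sum_ne_zero hi
      rw [Matrix.single_apply] at hj
      have hj2 : old (lf1 i) = a ∧ lf j = c := by
        by_contra h2
        rw [if_neg h2] at hj
        exact hj rfl
      exact ⟨⟨i, hj2.1.symm⟩, ⟨j, hj2.2.symm⟩⟩
    have hsub : ℓ = 0 → ∀ c c' : J, c = c' := by
      intro h0 c c'
      subst h0
      have : Fintype.card J ≤ 1 := by simp at hcard; omega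
      exact Fintype.card_le_one_iff.1 this c c'
    rw [per_add_of]
    · have hper : (N ξ η).permanent = 0 := by
        unfold Matrix.permanent
        apply Finset.sum_eq_zero
        intro σ _
        by_cases hσ : σ (old (old1 ())) ∈ O
        · obtain ⟨p, hp⟩ := (hO _).1 hσ
          apply Finset.prod_eq_zero (Finset.mem_univ (old (old1 ())))
          rw [hp]
          exact hr0 ξ η p
        · obtain ⟨d, hd1, hd2⟩ := exists_in σ ((hO _).2 ⟨_, rfl⟩) hσ
          apply Finset.prod_eq_zero (Finset.mem_univ d)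
          exact hN1 _ _ hd2 hd1
      rw [hper, zero_add]
      simp only [hY, Matrix.sum_apply, Finset.sum_mul]
      calc ∑ a, ∑ c, ∑ i, ∑ j, Matrix.single (old (lf1 i)) (lf j) (Z i j) a c
            * rowLin (N ξ η) a (Pi.single c 1)
          = ∑ i, ∑ j, ∑ a, ∑ c, Matrix.single (old (lf1 i)) (lf j) (Z i j) a c
            * rowLin (N ξ η) a (Pi.single c 1) := by
            rw [Finset.sum_congr rfl (fun a _ => Finset.sum_comm)]
            rw [Finset.sum_comm]
            apply Finset.sum_congr rfl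
            intro i _
            rw [Finset.sum_congr rfl (fun a _ => Finset.sum_comm)]
            rw [Finset.sum_comm]
        _ = _ := by
            apply Finset.sum_congr rfl
            intro i _
            apply Finset.sum_congr rfl
            intro j _
            rw [Finset.sum_eq_single (old (lf1 i)), Finset.sum_eq_single (lf j)]
            · rw [Matrix.single_apply_same, hval]
            · intro c _ hc
              rw [Matrix.single_apply_of_ne, zero_mul]
              rintro ⟨-, h2⟩
              exact hc h2.symm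
            · simp
            · intro a _ ha
              apply Finset.sum_eq_zero
              intro c _
              rw [Matrix.single_apply_of_ne, zero_mul]
              rintro ⟨h2, -⟩
              exact ha h2.symm
            · simp
    · intro σ hσ c c' hc hc'
      by_cases h0 : ℓ = 0
      · exact hsub h0 c c'
      by_contra hne
      have hlf : ∀ j, lf j ∉ O := by
        intro j hj
        obtain ⟨k, hk⟩ := (hO _).1 hj
        exact h0 (h.lf_old _ _ hk).1
      obtain ⟨⟨i, hi⟩, ⟨j, hj⟩⟩ := hYv _ _ hc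
      obtain ⟨⟨i', hi'⟩, ⟨j', hj'⟩⟩ := hYv _ _ hc'
      obtain ⟨d, hd1, hd2, hd3⟩ := exists_out (O := O) σ (c := c) (c' := c')
        (by rw [hj]; exact hlf j) (by rw [hj']; exact hlf j')
        ((hO _).2 ⟨_, hi⟩) ((hO _).2 ⟨_, hi'⟩) hne (old (old1 ()))
      rcases hσ d with h5 | h5
      · exact h5 (hN2 _ _ hd3 hd1 hd2)
      · obtain ⟨-, ⟨j2, hj2⟩⟩ := hYv _ _ h5
        exact hlf j2 (hj2 ▸ hd1)

end Pool.Agent.TH687.TG
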