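import Mathlib
import Pool.Agent.TH687.TG.Gadget
import Pool.Agent.H505R3.PRE.Prog
import Pool.Agent.H505R3.PRE.Points

set_option autoImplicit false
set_option linter.unusedSectionVars false

/-!
# Points at which the gradients of the permanent span everything, characteristic not two
-/

namespace Pool.Agent.TH687.TG

open Finset Equiv Matrix Pool.Agent.H567.Nec Pool.Agent.H505R3.PRE

lemma per_map {ι R S : Type*} [Fintype ι] [DecidableEq ι] [CommRing R] [CommRing S] (f : R →+* S)
    (M : Matrix ι ι R) : (M.map f).permanent = f M.permanent := by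
  simp [Matrix.permanent, map_sum, map_prod]

lemma per_submatrix {ι κ R : Type*} [Fintype ι] [DecidableEq ι] [Fintype κ] [DecidableEq κ]
    [CommRing R] (e f : κ ≃ ι) (M : Matrix ι ι R) :
    (M.submatrix e f).permanent = M.permanent := by
  unfold Matrix.permanent
  let E : Perm κ ≃ Perm ι :=
    { toFun := fun σ => (f.symm.trans σ).trans e
      invFun := fun π => (f.trans π).trans e.symm
      left_inv := by intro σ; ext a; simp
      right_inv := by intro π; ext a; simp }
  rw [← Equiv.sum_comp E]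
  apply Finset.sum_congr rfl
  intro σ _
  rw [← Equiv.prod_comp f]
  apply Finset.prod_congr rfl
  intro a _
  simp [E]

lemma snd_aeval_gperm {K : Type*} [Field K] {m : ℕ} {ω : Type*} (w : ω → Fin m × Fin m)
    (x : Fin m × Fin m → K) (p : ω) :
    (MvPolynomial.aeval (jet w x) (gperm K m)).snd p
      = rowLin (Matrix.of fun a c => x (a, c)) (w p).1 (Pi.single (w p).2 1) := by
  classical
  let ψ : TrivSqZeroExt K (ω → K) →ₐ[K] TrivSqZeroExt K K :=
    TrivSqZeroExt.map (LinearMap.proj p)
  have h1 : ∀ z, (ψ z).snd = z.snd p := by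
    intro z
    simp [ψ]
  rw [← h1]
  have h2 : ψ (MvPolynomial.aeval (jet w x) (gperm K m))
      = (Matrix.of fun a c => TrivSqZeroExt.inl (x (a, c))
        + TrivSqZeroExt.inr (if w p = (a, c) then (1 : K) else 0) :
        Matrix (Fin m) (Fin m) (TrivSqZeroExt K K)).permanent := by
    unfold gperm Matrix.permanent
    simp only [map_sum, map_prod, Matrix.of_apply, MvPolynomial.aeval_X]
    apply Finset.sum_congr rfl
    intro σ _
    apply Finset.prod_congr rfl
    intro c _
    simp [ψ, jet]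
  rw [h2]
  set X : Matrix (Fin m) (Fin m) (TrivSqZeroExt K K) :=
    (Matrix.of fun a c => x (a, c)).map (TrivSqZeroExt.inlHom K K) with hX
  have h3 : (Matrix.of fun a c => TrivSqZeroExt.inl (x (a, c))
        + TrivSqZeroExt.inr (if w p = (a, c) then (1 : K) else 0) :
        Matrix (Fin m) (Fin m) (TrivSqZeroExt K K))
      = X.updateRow (w p).1 (X (w p).1 + (TrivSqZeroExt.inr (1 : K) : TrivSqZeroExt K K) •
        Pi.single (w p).2 1) := by
    ext1 a c
    by_cases ha : a = (w p).1
    · subst ha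
      rw [updateRow_self]
      by_cases hc : c = (w p).2
      · subst hc
        simp [hX]
      · have : ¬ (w p = ((w p).1, c)) := by
          intro h
          exact hc (congrArg Prod.snd h).symm
        simp [hX, this, Pi.single_eq_of_ne hc]
    · rw [updateRow_ne ha]
      have : ¬ (w p = (a, c)) := by
        intro h
        exact ha (congrArg Prod.fst h).symm
      simp [hX, this]
  rw [h3, ← rowLin_apply, map_add, map_smul]
  have h4 : rowLin X (w p).1 (X (w p).1) = TrivSqZeroExt.inl
      ((Matrix.of fun a c => x (a, c)).permanent) := by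
    rw [rowLin_apply, updateRow_eq_self, hX, per_map]
    rfl
  have h5 : rowLin X (w p).1 (Pi.single (w p).2 1) = TrivSqZeroExt.inl
      (rowLin (Matrix.of fun a c => x (a, c)) (w p).1 (Pi.single (w p).2 1)) := by
    rw [rowLin_apply, rowLin_apply, ← TrivSqZeroExt.inlHom_apply, ← per_map]
    congr 1
    ext1 a c
    by_cases ha : a = (w p).1
    · subst ha
      simp only [updateRow_self, Matrix.map_apply]
      by_cases hc : c = (w p).2
      · subst hc
        simp
      · simp [Pi.single_eq_of_ne hc]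
    · simp [updateRow_ne ha, hX]
  rw [h4, h5]
  simp

/-- extension of a bijection between two copies of an index set -/
lemma exists_equiv_match {τ ι κ : Type*} [Fintype τ] [Fintype ι] [Fintype κ] [DecidableEq ι]
    [DecidableEq κ] (d : τ → ι) (hd : Function.Injective d) (r : τ → κ)
    (hr : Function.Injective r) (hcard : Fintype.card ι = Fintype.card κ) :
    ∃ e : ι ≃ κ, ∀ s, e (d s) = r s := by
  have h1 : Fintype.card τ ≤ Fintype.card κ := Fintype.card_le_of_injective r hr
  obtain ⟨e1, h1'⟩ := exists_equiv_extend (ν := Fin (Fintype.card κ - Fintype.card τ)) d hd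
    (by simp; omega)
  obtain ⟨e2, h2'⟩ := exists_equiv_extend (ν := Fin (Fintype.card κ - Fintype.card τ)) r hr
    (by simp; omega)
  refine ⟨e1.symm.trans e2, ?_⟩
  intro s
  rw [← h1' s]
  simp [h2']

/-- the linear factors with the right choice of the parameter separate the bits -/
lemma wt_sel {K : Type*} [CommRing K] (b : ℕ) (s t : Bool) :
    wt b ((2 : K) ^ b + (if s then 0 else -2)) t
      = if s = t then (if s then 2 else -2) else 0 := by
  unfold wt
  cases s <;> cases t <;> simp

/-- the entries prescribed in the block -/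
def zb {K J : Type*} [CommRing K] [DecidableEq J] {ℓ : ℕ} (rw cl : (Fin ℓ → Bool) → J)
    (Z : (Fin ℓ → Bool) → (Fin ℓ → Bool) → K) : Matrix J J K :=
  ∑ i, ∑ j, Matrix.single (rw i) (cl j) (Z i j)

lemma rowLin_eq_sub {K J : Type*} [CommRing K] [Fintype J] [DecidableEq J] (M : Matrix J J K)
    (a c : J) : rowLin M a (Pi.single c 1) = (M + Matrix.single a c 1).permanent - M.permanent := by
  have h : M + Matrix.single a c 1 = M.updateRow a (M a + Pi.single c 1) := by
    ext i j
    by_cases hi : i = a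
    · subst hi
      rw [updateRow_self, Matrix.add_apply, Pi.add_apply, Matrix.single_apply, Pi.single_apply]
      by_cases hj : j = c
      · simp [hj]
      · simp [hj, Ne.symm hj]
    · rw [updateRow_ne hi, Matrix.add_apply, Matrix.single_apply_of_row_ne (Ne.symm hi), add_zero]
  rw [h, ← rowLin_apply, map_add, rowLin_apply M a (M a), updateRow_eq_self]
  ring

lemma IsGadget.val_zb {K J : Type*} [CommRing K] [Fintype J] [DecidableEq J] {ℓ : ℕ}
    {N : (Fin ℓ → K) → (Fin ℓ → K) → Matrix J J K} {rw cl : (Fin ℓ → Bool) → J}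
    {dg : Fin ℓ ⊕ Fin ℓ → J} (h : IsGadget ℓ N rw cl dg) (ξ η : Fin ℓ → K)
    (Z : (Fin ℓ → Bool) → (Fin ℓ → Bool) → K) (i j : Fin ℓ → Bool) :
    rowLin (N ξ η + zb rw cl Z) (rw i) (Pi.single (cl j) 1)
      = (∏ s : Fin ℓ, wt (s : ℕ) (ξ s) (i s)) * ∏ s : Fin ℓ, wt (s : ℕ) (η s) (j s) := by
  classical
  rw [rowLin_eq_sub, zb, h.block]
  have h1 : N ξ η + ∑ i, ∑ j, Matrix.single (rw i) (cl j) (Z i j)
        + Matrix.single (rw i) (cl j) 1
      = N ξ η + ∑ i', ∑ j', Matrix.single (rw i') (cl j')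
        (Z i' j' + if i' = i ∧ j' = j then 1 else 0) := by
    rw [add_assoc]
    congr 1
    simp only [Matrix.single_add, Finset.sum_add_distrib]
    congr 1
    rw [Finset.sum_eq_single i, Finset.sum_eq_single j]
    · simp
    · intro j' _ hj'
      simp [hj']
    · simp
    · intro i' _ hi'
      apply Finset.sum_eq_zero
      intro j' _
      simp [hi']
    · simp
  rw [h1, h.block]
  simp only [add_mul, Finset.sum_add_distrib, add_sub_cancel_left]
  rw [Finset.sum_eq_single i, Finset.sum_eq_single j]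
  · simp
  · intro j' _ hj'
    simp [hj']
  · simp
  · intro i' _ hi'
    apply Finset.sum_eq_zero
    intro j' _
    simp [hi']
  · simp

/-- the product of linear factors belonging to a pair of leaves -/
def wts {K : Type*} [CommRing K] {ℓ : ℕ} (ξ : Fin ℓ ⊕ Fin ℓ → K)
    (p : (Fin ℓ → Bool) × (Fin ℓ → Bool)) : K :=
  (∏ s : Fin ℓ, wt (s : ℕ) (ξ (Sum.inl s)) (p.1 s))
    * ∏ s : Fin ℓ, wt (s : ℕ) (ξ (Sum.inr s)) (p.2 s)

lemma eval_gperm {K : Type*} [Field K] {m : ℕ} (x : Fin m × Fin m → K) :
    MvPolynomial.eval x (gperm K m) = (Matrix.of fun a c => x (a, c)).permanent := by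
  unfold gperm Matrix.permanent
  simp [map_sum, map_prod]

/-- Points at which the permanent is a prescribed combination of the products of linear factors
and its derivatives are these products. -/
theorem exists_points_base (K : Type*) [Field K] (m ℓ : ℕ)
    (hm : 4 * 2 ^ ℓ + 2 * ℓ ≤ m + 3) (r c : Fin (2 * ℓ) → Fin m) (hr : Function.Injective r)
    (hc : Function.Injective c) (Z : (Fin ℓ → Bool) → (Fin ℓ → Bool) → K) :
    ∃ (w : (Fin ℓ → Bool) × (Fin ℓ → Bool) → Fin m × Fin m)
      (x : (Fin ℓ ⊕ Fin ℓ → K) → (Fin m × Fin m) → K),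
      Function.Injective w ∧ (∀ p s, w p ≠ (r s, c s)) ∧
      (∀ ξ ξ' v, (∀ s, v ≠ (r s, c s)) → x ξ v = x ξ' v) ∧
      (∀ ξ p, (MvPolynomial.aeval (jet w (x ξ)) (gperm K m)).snd p = wts ξ p) ∧
      (∀ ξ, MvPolynomial.eval (x ξ) (gperm K m) = ∑ i, ∑ j, Z i j * wts ξ (i, j)) := by
  classical
  obtain ⟨J, _, _, N, rw', cl, dg, h⟩ := exists_gadget K ℓ
  have hJ := h.card
  obtain ⟨k, hk⟩ : ∃ k, Fintype.card J + k = m := ⟨m - Fintype.card J, by omega⟩
  let eF : Fin ℓ ⊕ Fin ℓ ≃ Fin (2 * ℓ) := finSumFinEquiv.trans (finCongr (by ring))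
  have hd : Function.Injective (fun s => (Sum.inl (dg s) : J ⊕ Fin k)) :=
    Sum.inl_injective.comp h.dg_inj
  obtain ⟨Er, hEr⟩ := exists_equiv_match (fun s => (Sum.inl (dg s) : J ⊕ Fin k)) hd (r ∘ eF)
    (hr.comp eF.injective) (by simp [hk])
  obtain ⟨Ec, hEc⟩ := exists_equiv_match (fun s => (Sum.inl (dg s) : J ⊕ Fin k)) hd (c ∘ eF)
    (hc.comp eF.injective) (by simp [hk])
  let w : (Fin ℓ → Bool) × (Fin ℓ → Bool) → Fin m × Fin m := fun p =>
    (Er (Sum.inl (rw' p.1)), Ec (Sum.inl (cl p.2)))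
  let x : ((Fin ℓ ⊕ Fin ℓ) → K) → (Fin m × Fin m) → K := fun ξ v =>
    (Matrix.fromBlocks (N (fun s => ξ (Sum.inl s)) (fun s => ξ (Sum.inr s)) + zb rw' cl Z) 0 0
      (1 : Matrix (Fin k) (Fin k) K)) (Er.symm v.1) (Ec.symm v.2)
  have hw : Function.Injective w := by
    intro p q hpq
    have h1 := congrArg Prod.fst hpq
    have h2 := congrArg Prod.snd hpq
    simp only [w] at h1 h2
    have h3 := Sum.inl_injective (Er.injective h1)
    have h4 := Sum.inl_injective (Ec.injective h2)
    exact Prod.ext (h.rw_inj h3) (h.cl_inj h4)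
  refine ⟨w, x, hw, ?_, ?_, ?_, ?_⟩
  · intro p s hps
    obtain ⟨s', rfl⟩ := eF.surjective s
    have h1 : Er (Sum.inl (rw' p.1)) = r (eF s') := congrArg Prod.fst hps
    have h2 : Ec (Sum.inl (cl p.2)) = c (eF s') := congrArg Prod.snd hps
    have h1' := hEr s'
    have h2' := hEc s'
    simp only [Function.comp_apply] at h1' h2'
    rw [← h1'] at h1
    rw [← h2'] at h2
    exact h.off p.1 p.2 s' (Sum.inl_injective (Er.injective h1))
      (Sum.inl_injective (Ec.injective h2))
  · intro ξ ξ' v hv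
    simp only [x]
    rcases h1 : Er.symm v.1 with a | a <;> rcases h2 : Ec.symm v.2 with b | b
    · simp only [Matrix.fromBlocks_apply₁₁, Matrix.add_apply]
      congr 1
      apply h.indep
      intro s ha hb
      apply hv (eF s)
      rw [Equiv.symm_apply_eq] at h1 h2
      have h1' := hEr s
      have h2' := hEc s
      simp only [Function.comp_apply] at h1' h2'
      rw [ha, h1'] at h1
      rw [hb, h2'] at h2
      exact Prod.ext h1 h2
    · simp
    · simp
    · simp
  · intro ξ p
    rw [snd_aeval_gperm, wts, ← h.val_zb (fun s => ξ (Sum.inl s)) (fun s => ξ (Sum.inr s)) Z,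
      rowLin_apply, rowLin_apply,
      ← permanent_fromBlocks_one (κ := Fin k) ((N _ _ + zb rw' cl Z).updateRow _ _),
      ← per_submatrix Er Ec]
    congr 1
    ext1 a b
    rw [Matrix.submatrix_apply]
    rcases a with a | a
    · by_cases ha : a = rw' p.1
      · subst ha
        rw [show (w p).1 = Er (Sum.inl (rw' p.1)) from rfl, updateRow_self]
        rcases b with b | b
        · simp [w, Pi.single_apply]
        · simp [w]
      · rw [updateRow_ne (by simpa [w] using ha)]
        rcases b with b | b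
        · simp [x, updateRow_ne ha]
        · simp [x]
    · rw [updateRow_ne (by simp [w])]
      rcases b with b | b
      · simp [x]
      · simp [x]
  · intro ξ
    have h1 := h.block (fun s => ξ (Sum.inl s)) (fun s => ξ (Sum.inr s)) Z
    simp only [wts]
    rw [← h1, eval_gperm, ← permanent_fromBlocks_one (κ := Fin k) (N _ _ + _),
      ← per_submatrix Er Ec]
    congr 1
    ext1 a b
    rw [Matrix.submatrix_apply]
    rcases a with a | a <;> rcases b with b | b <;> simp [x, zb]

/-- a family of vectors which contains nonzero multiples of the unit vectors spans -/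
lemma span_wts {K : Type*} [Field K] (h2 : (2 : K) ≠ 0) {ℓ : ℕ}
    (A : Submodule K ((Fin ℓ → Bool) × (Fin ℓ → Bool) → K))
    (hA : ∀ ξ : Fin ℓ ⊕ Fin ℓ → K, wts ξ ∈ A) : A = ⊤ := by
  classical
  rw [eq_top_iff]
  intro f _
  have hsingle : ∀ q : (Fin ℓ → Bool) × (Fin ℓ → Bool), Pi.single q (1 : K) ∈ A := by
    intro q
    have h3 := hA (Sum.elim (fun s : Fin ℓ => (2 : K) ^ (s : ℕ) + if q.1 s then 0 else -2)
      (fun s : Fin ℓ => (2 : K) ^ (s : ℕ) + if q.2 s then 0 else -2))
    have h4 : wts (Sum.elim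
        (fun s : Fin ℓ => (2 : K) ^ (s : ℕ) + if q.1 s then 0 else -2)
        (fun s : Fin ℓ => (2 : K) ^ (s : ℕ) + if q.2 s then 0 else -2))
        = ((∏ s : Fin ℓ, if q.1 s then (2 : K) else -2)
          * ∏ s : Fin ℓ, if q.2 s then (2 : K) else -2) • Pi.single q 1 := by
      funext p
      simp only [wts, Sum.elim_inl, Sum.elim_inr, wt_sel]
      by_cases hpq : p = q
      · subst hpq
        simp
      · rw [Pi.smul_apply, Pi.single_eq_of_ne hpq, smul_zero]
        by_cases h1 : p.1 = q.1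
        · have h5 : p.2 ≠ q.2 := fun h5 => hpq (Prod.ext h1 h5)
          obtain ⟨s, hs⟩ := Function.ne_iff.1 h5
          rw [Finset.prod_eq_zero (i := s) (s := Finset.univ)
            (f := fun s : Fin ℓ => if q.2 s = p.2 s then (if q.2 s then (2 : K) else -2) else 0)
            (Finset.mem_univ s) (if_neg (Ne.symm hs)), mul_zero]
        · obtain ⟨s, hs⟩ := Function.ne_iff.1 h1
          rw [Finset.prod_eq_zero (i := s) (s := Finset.univ)
            (f := fun s : Fin ℓ => if q.1 s = p.1 s then (if q.1 s then (2 : K) else -2) else 0)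
            (Finset.mem_univ s) (if_neg (Ne.symm hs)), zero_mul]
    rw [h4] at h3
    have h5 : ((∏ s : Fin ℓ, if q.1 s then (2 : K) else -2)
          * ∏ s : Fin ℓ, if q.2 s then (2 : K) else -2) ≠ 0 := by
      apply mul_ne_zero
      · rw [Finset.prod_ne_zero_iff]
        intro s _
        split_ifs
        · exact h2
        · exact neg_ne_zero.2 h2
      · rw [Finset.prod_ne_zero_iff]
        intro s _
        split_ifs
        · exact h2
        · exact neg_ne_zero.2 h2
    have h6 := A.smul_mem ((∏ s : Fin ℓ, if q.1 s then (2 : K) else -2)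
          * ∏ s : Fin ℓ, if q.2 s then (2 : K) else -2)⁻¹ h3
    rw [smul_smul, inv_mul_cancel₀ h5, one_smul] at h6
    exact h6
  have h7 : f = ∑ q, f q • Pi.single q (1 : K) := by
    funext p
    rw [Finset.sum_apply, Finset.sum_eq_single p]
    · simp
    · intro q _ hq
      simp [Pi.single_eq_of_ne (Ne.symm hq)]
    · simp
  rw [h7]
  exact A.sum_mem fun q _ => A.smul_mem _ (hsingle q)

/-- Points at which the gradients of the permanent span everything, over every field of
characteristic different from two; the permanent is different from zero at one of them. -/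
theorem exists_jets_odd (K : Type*) [Field K] (h2 : (2 : K) ≠ 0) (m ℓ : ℕ)
    (hm : 4 * 2 ^ ℓ + 2 * ℓ ≤ m + 3) (r c : Fin (2 * ℓ) → Fin m) (hr : Function.Injective r)
    (hc : Function.Injective c) :
    ∃ (Ξ : Type) (P : (Ξ → K) → (Fin m × Fin m) →
        TrivSqZeroExt K (Fin (2 ^ ℓ) × Fin (2 ^ ℓ) → K)),
      (∀ ξ s, (P ξ (r s, c s)).snd = 0) ∧
      (∀ ξ ξ' v, (∀ s, v ≠ (r s, c s)) → P ξ v = P ξ' v) ∧
      (∀ A : Submodule K (Fin (2 ^ ℓ) × Fin (2 ^ ℓ) → K),
        (∀ ξ, (MvPolynomial.aeval (P ξ) (gperm K m)).snd ∈ A) → A = ⊤) ∧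
      ∃ ξ, (MvPolynomial.aeval (P ξ) (gperm K m)).fst ≠ 0 := by
  classical
  obtain ⟨w, x, hw, hoff, hx, hsnd, hval⟩ := exists_points_base K m ℓ hm r c hr hc
    (fun i j => if i = (fun _ => true) ∧ j = (fun _ => true) then 1 else 0)
  have e0 : Fintype.card (Fin (2 ^ ℓ)) = Fintype.card (Fin ℓ → Bool) := by simp
  let e : Fin (2 ^ ℓ) ≃ (Fin ℓ → Bool) := Fintype.equivOfCardEq e0
  let ee : Fin (2 ^ ℓ) × Fin (2 ^ ℓ) ≃ (Fin ℓ → Bool) × (Fin ℓ → Bool) := Equiv.prodCongr e e
  refine ⟨Fin ℓ ⊕ Fin ℓ, fun ξ => jet (w ∘ ee) (x ξ), ?_, ?_, ?_, ?_⟩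
  · intro ξ s
    funext p
    unfold jet
    rw [TrivSqZeroExt.snd_add, TrivSqZeroExt.snd_inl, TrivSqZeroExt.snd_inr, zero_add,
      Function.comp_apply, if_neg (hoff _ s), Pi.zero_apply]
  · intro ξ ξ' v hv
    have h4 : x ξ v = x ξ' v := hx ξ ξ' v fun s hs => hv s hs
    show jet (w ∘ ee) (x ξ) v = jet (w ∘ ee) (x ξ') v
    unfold jet
    rw [h4]
  · intro A hA
    let L : (Fin (2 ^ ℓ) × Fin (2 ^ ℓ) → K) ≃ₗ[K] ((Fin ℓ → Bool) × (Fin ℓ → Bool) → K) :=
      LinearEquiv.funCongrLeft K K ee.symm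
    have h5 : A.map L.toLinearMap = ⊤ := by
      apply span_wts h2
      intro ξ
      rw [Submodule.mem_map]
      refine ⟨_, hA ξ, ?_⟩
      funext p
      have h6 := hsnd ξ p
      rw [← h6, snd_aeval_gperm]
      simp [L, LinearEquiv.funCongrLeft_apply, LinearMap.funLeft, snd_aeval_gperm]
    rw [eq_top_iff]
    intro f _
    have h7 : L f ∈ A.map L.toLinearMap := by
      rw [h5]
      exact Submodule.mem_top
    obtain ⟨g, hg, hgf⟩ := Submodule.mem_map.1 h7
    have h8 : g = f := L.injective hgf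
    rw [← h8]
    exact hg
  · refine ⟨Sum.elim (fun s : Fin ℓ => (2 : K) ^ (s : ℕ) + 0)
      (fun s : Fin ℓ => (2 : K) ^ (s : ℕ) + 0), ?_⟩
    have h8 := fst_J (w ∘ ee) (x (Sum.elim (fun s : Fin ℓ => (2 : K) ^ (s : ℕ) + 0)
      (fun s : Fin ℓ => (2 : K) ^ (s : ℕ) + 0))) (gperm K m)
    rw [h8, hval, Finset.sum_eq_single (fun _ => true), Finset.sum_eq_single (fun _ => true)]
    · simp [wts, wt, h2]
    · intro j _ hj
      simp [hj]
    · simp
    · intro i _ hi
      apply Finset.sum_eq_zero
      intro j _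
      simp [hi]
    · simp

end Pool.Agent.TH687.TG
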