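import Mathlib
import Pool.Agent.H505R3.RSB.Border
import Pool.Agent.TH687.TG.Points
import Pool.Agent.H632R2.Border3

set_option autoImplicit false
set_option linter.unusedSectionVars false

/-!
# Ranks of the coefficient matrices, characteristic not two

The proof of `border_local_of` is that of `H505R3.RSB.border_local`, with the jets as a hypothesis.
-/

namespace Pool.Agent.TH687.TG

open Finset MvPolynomial Equiv Pool.Agent.H567.Nec Pool.Agent.H505R3.RSB

/-- The abstract local theorem for degenerations. -/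
theorem border_local_of {k : Type*} [Field k] {K : Type*} [Field K] (O : Subring K)
    (φ : O →+* k) (ψ : k →+* O) (hφψ : ∀ c, φ (ψ c) = c) {m n ℓ n' : ℕ}
    (r c : Fin (2 * ℓ) → Fin m) (hr : Function.Injective r)
    (hjets : ∃ (Ξ : Type) (P : (Ξ → k) → (Fin m × Fin m) → TrivSqZeroExt k (Fin n' × Fin n' → k)),
      (∀ ξ s, (P ξ (r s, c s)).snd = 0) ∧
      (∀ ξ ξ' v, (∀ s, v ≠ (r s, c s)) → P ξ v = P ξ' v) ∧
      (∀ A : Submodule k (Fin n' × Fin n' → k),
        (∀ ξ, (MvPolynomial.aeval (P ξ) (gperm k m)).snd ∈ A) → A = ⊤) ∧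
      ∃ ξ, (MvPolynomial.aeval (P ξ) (gperm k m)).fst ≠ 0)
    (A : Matrix (Fin n) (Fin n) (MvPolynomial (Fin m × Fin m) K))
    (hA : ∀ i j, (A i j).totalDegree ≤ 1) (G : MvPolynomial (Fin m × Fin m) O)
    (hdet : A.det = MvPolynomial.map O.subtype G) (hG : MvPolynomial.map φ G = gperm k m) :
    n' ^ 2 ≤ (∑ s, (coefMat A (r s, c s)).rank) ^ 2 + 1 := by
  classical
  obtain ⟨Ξ, P₀, h1₀, h2₀, h3, ξ₀, h4⟩ := hjets
  let ω := Fin n' × Fin n'
  let PO : (Ξ → k) → (Fin m × Fin m) → TrivSqZeroExt O (ω → O) := fun ξ v => tmap ψ ω (P₀ ξ v)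
  let P : (Ξ → k) → (Fin m × Fin m) → TrivSqZeroExt K (ω → K) :=
    fun ξ v => tmap O.subtype ω (PO ξ v)
  have hφ : ∀ ξ, tmap φ ω (aeval (PO ξ) G) = aeval (P₀ ξ) (gperm k m) := by
    intro ξ
    rw [tmap_aeval, hG]
    congr 1
    congr 1
    funext v
    ext w
    · rw [tmap_fst, tmap_fst, hφψ]
    · rw [tmap_snd, tmap_snd, hφψ]
  have hK : ∀ ξ, aeval (P ξ) A.det = tmap O.subtype ω (aeval (PO ξ) G) := by
    intro ξ
    rw [hdet, tmap_aeval]
  have h1 : ∀ ξ s, (P ξ (r s, c s)).snd = 0 := by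
    intro ξ s
    funext w
    change (tmap O.subtype ω (tmap ψ ω (P₀ ξ (r s, c s)))).snd w = 0
    rw [tmap_snd, tmap_snd, h1₀]
    simp
  have h2 : ∀ ξ ξ' v, (∀ s, v ≠ (r s, c s)) → P ξ v = P ξ' v := by
    intro ξ ξ' v hv
    change tmap O.subtype ω (tmap ψ ω (P₀ ξ v)) = tmap O.subtype ω (tmap ψ ω (P₀ ξ' v))
    rw [h2₀ ξ ξ' v hv]
  have hval : ∀ ξ, (A.map (aeval (P ξ))).det = aeval (P ξ) A.det := by
    intro ξ
    exact (AlgHom.map_det (aeval (P ξ)) A).symm
  choose Uf Vf hUV using fun s => exists_rank_factor (coefMat A (r s, c s))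
  let ρ := Σ s : Fin (2 * ℓ), Fin (coefMat A (r s, c s)).rank
  let SS := TrivSqZeroExt K (ω → K)
  let U : Matrix (Fin n) ρ SS := Matrix.of fun a p => algebraMap K SS (Uf p.1 a p.2)
  let V : Matrix ρ (Fin n) SS := Matrix.of fun p b => algebraMap K SS (Vf p.1 p.2 b)
  have hunit : IsUnit (A.map (aeval (P ξ₀))).det := by
    rw [hval, hK, TrivSqZeroExt.isUnit_iff_isUnit_fst, tmap_fst, isUnit_iff_ne_zero]
    intro h0
    have h5 : (aeval (PO ξ₀) G).fst = 0 := Subtype.ext h0
    apply h4
    rw [← hφ ξ₀, tmap_fst, h5, map_zero]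
  obtain ⟨D, hD, hDmem⟩ := family_dim (A.map (aeval (P ξ₀))) hunit U V
  have hmemD : ∀ ξ, (aeval (P ξ) A.det).snd ∈ D := by
    intro ξ
    let Z : Matrix ρ ρ SS := Matrix.diagonal fun p => P ξ (r p.1, c p.1) - P ξ₀ (r p.1, c p.1)
    have hZ : ∀ i j, (Z i j).snd = 0 := by
      intro i j
      by_cases hij : i = j
      · subst hij
        simp only [Z, Matrix.diagonal_apply_eq, TrivSqZeroExt.snd_sub, h1, sub_self]
      · simp only [Z, Matrix.diagonal_apply_ne _ hij, TrivSqZeroExt.snd_zero]
    have h5 := hDmem Z hZ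
    have h6 : A.map (aeval (P ξ₀)) + U * Z * V = A.map (aeval (P ξ)) := by
      ext a b : 1
      rw [Matrix.add_apply, Matrix.map_apply, Matrix.map_apply, aeval_entry A hA, aeval_entry A hA]
      have h7 : (U * Z * V) a b = ∑ s : Fin (2 * ℓ), algebraMap K SS (coefMat A (r s, c s) a b)
          * (P ξ (r s, c s) - P ξ₀ (r s, c s)) := by
        rw [Matrix.mul_apply, Fintype.sum_sigma]
        apply Finset.sum_congr rfl
        intro s _
        have e := congrFun (congrFun (hUV s) a) b
        rw [Matrix.mul_apply] at e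
        rw [e, map_sum, Finset.sum_mul]
        apply Finset.sum_congr rfl
        intro k _
        have e2 : (U * Z) a ⟨s, k⟩ = U a ⟨s, k⟩ * (P ξ (r s, c s) - P ξ₀ (r s, c s)) :=
          Matrix.mul_diagonal _ _ _ _
        rw [e2, map_mul]
        change algebraMap K SS (Uf s a k) * _ * algebraMap K SS (Vf s k b) = _
        ring
      have h8 : ∑ v, algebraMap K SS (coefMat A v a b) * P ξ v
          = ∑ v, algebraMap K SS (coefMat A v a b) * P ξ₀ v
            + ∑ s : Fin (2 * ℓ), algebraMap K SS (coefMat A (r s, c s) a b)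
          * (P ξ (r s, c s) - P ξ₀ (r s, c s)) := by
        rw [eq_comm, ← eq_sub_iff_add_eq', ← Finset.sum_sub_distrib]
        have hinj : Function.Injective (fun s => (r s, c s)) := by
          intro s s' h
          exact hr (congrArg Prod.fst h)
        rw [← Finset.sum_subset (Finset.subset_univ (univ.image fun s => (r s, c s))),
          Finset.sum_image (fun s _ s' _ h => hinj h)]
        · apply Finset.sum_congr rfl
          intro s _
          ring
        · intro v _ hv
          rw [h2 ξ ξ₀ v, sub_self]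
          intro s hs
          apply hv
          rw [hs]
          exact Finset.mem_image_of_mem _ (Finset.mem_univ s)
      rw [h7, h8]
      ring
    rw [h6, hval] at h5
    exact h5
  -- the specialised jets span
  let S : Set (ω → k) := Set.range fun ξ : Ξ → k => (aeval (P₀ ξ) (gperm k m)).snd
  have hS : (⊤ : Submodule k (ω → k)) ≤ Submodule.span k S := by
    rw [h3 (Submodule.span k S) (fun ξ => Submodule.subset_span ⟨ξ, rfl⟩)]
  let bs := Module.Basis.ofSpan hS
  have hsub : Set.range bs ⊆ S := Module.Basis.ofSpan_subset hS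
  have : Fintype ↑((linearIndepOn_empty k id).extend (Set.empty_subset S)) :=
    @Fintype.ofFinite _ (Module.Finite.finite_basis bs)
  have hcard := Module.finrank_eq_card_basis bs
  rw [Module.finrank_fintype_fun_eq_card] at hcard
  let e := Fintype.equivOfCardEq hcard
  have hex : ∀ w : ω, ∃ ξ : Ξ → k, (aeval (P₀ ξ) (gperm k m)).snd = bs (e w) :=
    fun w => hsub ⟨e w, rfl⟩
  choose ξf hξf using hex
  have hlik : LinearIndependent k (fun w : ω => (aeval (P₀ (ξf w)) (gperm k m)).snd) := by
    have h5 := bs.linearIndependent.comp e e.injective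
    have h6 : (fun w : ω => (aeval (P₀ (ξf w)) (gperm k m)).snd) = bs ∘ e := funext hξf
    rw [h6]
    exact h5
  let Mk : Matrix ω ω k := Matrix.of fun w => (aeval (P₀ (ξf w)) (gperm k m)).snd
  let MO : Matrix ω ω O := Matrix.of fun w => (aeval (PO (ξf w)) G).snd
  have hMk : Mk.det ≠ 0 := by
    have h : LinearIndependent k Mk.row := hlik
    rw [Matrix.linearIndependent_rows_iff_isUnit, Matrix.isUnit_iff_isUnit_det] at h
    exact h.ne_zero
  have hMO : MO.det ≠ 0 := by
    intro h
    apply hMk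
    have h5 : Mk = φ.mapMatrix MO := by
      ext w w'
      change (aeval (P₀ (ξf w)) (gperm k m)).snd w' = φ ((aeval (PO (ξf w)) G).snd w')
      rw [← hφ, tmap_snd]
    rw [h5, ← RingHom.map_det, h, map_zero]
  have hMK : (O.subtype.mapMatrix MO).det ≠ 0 := by
    rw [← RingHom.map_det]
    intro h
    exact hMO (Subtype.ext h)
  have hliK : LinearIndependent K (O.subtype.mapMatrix MO).row := by
    rw [Matrix.linearIndependent_rows_iff_isUnit, Matrix.isUnit_iff_isUnit_det]
    exact isUnit_iff_ne_zero.mpr hMK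
  have hrow : ∀ w, (O.subtype.mapMatrix MO).row w ∈ D := by
    intro w
    have h5 := hmemD (ξf w)
    rw [hK] at h5
    convert h5 using 1
    funext w'
    rw [tmap_snd]
    rfl
  have hliD : LinearIndependent K (fun w : ω => (⟨(O.subtype.mapMatrix MO).row w, hrow w⟩ : D)) :=
    LinearIndependent.of_comp D.subtype hliK
  have hfin := hliD.fintype_card_le_finrank
  have hcω : Fintype.card ω = n' * n' := by
    rw [Fintype.card_prod, Fintype.card_fin]
  rw [hcω] at hfin
  have hρ : Fintype.card ρ = ∑ s, (coefMat A (r s, c s)).rank := by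
    rw [Fintype.card_sigma]
    simp
  rw [hρ] at hD
  rw [sq]
  exact hfin.trans hD


end Pool.Agent.TH687.TG
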